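import Mathlib

/-!
# Betti elements of block monoids over finite abelian groups
-/

namespace Pool.Agent.Lib.H83B

open Multiset

/-- An atom of the block monoid of `G`: a nonempty zero-sum sequence which is not the product
of two nonempty zero-sum sequences. -/
def BlockAtom {G : Type*} [AddCommGroup G] (a : Multiset G) : Prop :=
  a.sum = 0 ∧ a ≠ 0 ∧ ∀ b c : Multiset G, b.sum = 0 → c.sum = 0 → a = b + c → b = 0 ∨ c = 0

/-- A factorization of `s`: a multiset of atoms whose product (sum of multisets) is `s`. -/
def IsFactorization {G : Type*} [AddCommGroup G] (s : Multiset G)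
    (z : Multiset (Multiset G)) : Prop :=
  (∀ a ∈ z, BlockAtom a) ∧ z.sum = s

/-- The graph `∇_s` on the factorizations of `s`: two factorizations are adjacent when some atom
occurs in both. -/
def nabla {G : Type*} [AddCommGroup G] (s : Multiset G) :
    SimpleGraph {z : Multiset (Multiset G) // IsFactorization s z} :=
  SimpleGraph.fromRel fun z w => ∃ a, a ∈ z.1 ∧ a ∈ w.1

/-- `s` is a Betti element of the block monoid: `s` has sum zero and `∇_s` has at least two
connected components. -/
def IsBetti {G : Type*} [AddCommGroup G] (s : Multiset G) : Prop :=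
  s.sum = 0 ∧ ∃ c c' : (nabla s).ConnectedComponent, c ≠ c'

/-- The number of Betti elements of the block monoid of `G`. -/
noncomputable def betti (G : Type*) [AddCommGroup G] : ℕ :=
  Set.ncard {s : Multiset G | IsBetti s}

section Basic

variable {G : Type*} [AddCommGroup G]

theorem reach_of_share {s : Multiset G} (z w : {z : Multiset (Multiset G) // IsFactorization s z})
    (h : ∃ a, a ∈ z.1 ∧ a ∈ w.1) : (nabla s).Reachable z w := by
  by_cases hzw : z = w
  · rw [hzw]
  · exact SimpleGraph.Adj.reachable (by
      rw [nabla, SimpleGraph.fromRel_adj]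
      exact ⟨hzw, Or.inl h⟩)

theorem share_of_adj {s : Multiset G} {z w : {z : Multiset (Multiset G) // IsFactorization s z}}
    (h : (nabla s).Adj z w) : ∃ a, a ∈ z.1 ∧ a ∈ w.1 := by
  rw [nabla, SimpleGraph.fromRel_adj] at h
  rcases h.2 with h | ⟨a, h1, h2⟩
  · exact h
  · exact ⟨a, h2, h1⟩

theorem isBetti_iff {s : Multiset G} : IsBetti s ↔
    s.sum = 0 ∧ ∃ z w : {z : Multiset (Multiset G) // IsFactorization s z},
      ¬ (nabla s).Reachable z w := by
  unfold IsBetti
  refine and_congr_right fun _ => ?_
  constructor
  · rintro ⟨c, c', h⟩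
    induction c using SimpleGraph.ConnectedComponent.ind with
    | _ z =>
    induction c' using SimpleGraph.ConnectedComponent.ind with
    | _ w =>
    exact ⟨z, w, fun hr => h (SimpleGraph.ConnectedComponent.eq.2 hr)⟩
  · rintro ⟨z, w, h⟩
    exact ⟨(nabla s).connectedComponentMk z, (nabla s).connectedComponentMk w,
      fun hr => h (SimpleGraph.ConnectedComponent.eq.1 hr)⟩

/-- Every zero-sum sequence has a factorization. -/
theorem exists_factorization (s : Multiset G) (hs : s.sum = 0) :
    ∃ z, IsFactorization s z := by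
  classical
  induction' hn : card s using Nat.strong_induction_on with n ih generalizing s
  by_cases h0 : s = 0
  · exact ⟨0, by simp, by simp [h0]⟩
  by_cases ha : BlockAtom s
  · exact ⟨{s}, by simpa using ha, by simp⟩
  · unfold BlockAtom at ha
    push Not at ha
    obtain ⟨b, c, hb, hc, hbc, hb0, hc0⟩ := ha hs h0
    have h1 : card s = card b + card c := by rw [hbc, card_add]
    have h2 : 0 < card b := card_pos.2 hb0
    have h3 : 0 < card c := card_pos.2 hc0
    obtain ⟨z, hz, hz'⟩ := ih (card b) (by omega) b hb rfl
    obtain ⟨w, hw, hw'⟩ := ih (card c) (by omega) c hc rfl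
    refine ⟨z + w, ?_, ?_⟩
    · intro a ha
      rcases mem_add.1 ha with h | h
      · exact hz a h
      · exact hw a h
    · rw [sum_add, hz', hw', hbc]

/-- If an atom `a` is contained in the zero-sum sequence `s` then some factorization of `s`
contains `a`. -/
theorem exists_factorization_mem {s a : Multiset G} (hs : s.sum = 0) (ha : BlockAtom a)
    (hle : a ≤ s) : ∃ z, IsFactorization s z ∧ a ∈ z := by
  obtain ⟨t, rfl⟩ := Multiset.le_iff_exists_add.1 hle
  have ht : t.sum = 0 := by
    rw [sum_add, ha.1, zero_add] at hs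
    exact hs
  obtain ⟨z, hz, hz'⟩ := exists_factorization t ht
  refine ⟨a ::ₘ z, ⟨?_, ?_⟩, mem_cons_self _ _⟩
  · intro b hb
    rcases mem_cons.1 hb with h | h
    · rw [h]; exact ha
    · exact hz b h
  · rw [sum_cons, hz']

theorem le_of_mem_factorization {s a : Multiset G} {z : Multiset (Multiset G)}
    (hz : IsFactorization s z) (ha : a ∈ z) : a ≤ s := by
  rw [← hz.2]
  exact single_le_sum (fun x _ => Multiset.zero_le x) a ha

theorem atom_replicate (g : G) (hg : 0 < addOrderOf g) :
    BlockAtom (replicate (addOrderOf g) g) := by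
  classical
  refine ⟨by simp [addOrderOf_nsmul_eq_zero], ?_, ?_⟩
  · intro h
    have := congrArg card h
    simp only [card_replicate, card_zero] at this
    omega
  · intro b c hb hc hbc
    have hb' : b = replicate (card b) g := by
      refine eq_replicate_card.2 fun x hx => ?_
      have : x ∈ replicate (addOrderOf g) g := by rw [hbc]; exact mem_add.2 (Or.inl hx)
      exact eq_of_mem_replicate this
    have h1 : card b • g = 0 := by
      rw [hb', sum_replicate] at hb
      exact hb
    have h2 : addOrderOf g ∣ card b := addOrderOf_dvd_of_nsmul_eq_zero h1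
    have h3 : addOrderOf g = card b + card c := by
      have := congrArg card hbc
      simpa using this
    rcases Nat.eq_zero_or_pos (card b) with h4 | h4
    · left; exact card_eq_zero.1 h4
    · right
      have h5 := Nat.le_of_dvd h4 h2
      exact card_eq_zero.1 (by omega)

/-- An atom containing `g` at least `ord g` times is `g^(ord g)`. -/
theorem atom_eq_replicate [DecidableEq G] {g : G} (hg : 0 < addOrderOf g) {a : Multiset G}
    (ha : BlockAtom a) (h : addOrderOf g ≤ count g a) : a = replicate (addOrderOf g) g := by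
  have hle : replicate (addOrderOf g) g ≤ a := le_count_iff_replicate_le.1 h
  obtain ⟨t, ht⟩ := Multiset.le_iff_exists_add.1 hle
  have h1 : (replicate (addOrderOf g) g).sum = 0 := (atom_replicate g hg).1
  have h2 : t.sum = 0 := by
    have := ha.1
    rw [ht, sum_add, h1, zero_add] at this
    exact this
  rcases ha.2.2 _ _ h1 h2 ht with h3 | h3
  · exact absurd h3 (atom_replicate g hg).2.1
  · rw [ht, h3, add_zero]

/-- Bound for the multiplicities in a Betti element. -/
theorem count_le_of_isBetti [Finite G] [DecidableEq G] {s : Multiset G} (hs : IsBetti s) (g : G) :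
    count g s ≤ 2 * addOrderOf g := by
  rw [isBetti_iff] at hs
  obtain ⟨hs0, z, w, hzw⟩ := hs
  by_contra hlt
  push Not at hlt
  have hg : 0 < addOrderOf g := addOrderOf_pos g
  set A := replicate (addOrderOf g) g with hA
  have hAa : BlockAtom A := atom_replicate g hg
  -- every factorization is connected to one containing `A`
  have key : ∀ z : {z : Multiset (Multiset G) // IsFactorization s z},
      ∃ w : {z : Multiset (Multiset G) // IsFactorization s z}, A ∈ w.1 ∧
        (nabla s).Reachable z w := by
    rintro ⟨z, hz⟩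
    by_cases hAz : A ∈ z
    · exact ⟨⟨z, hz⟩, hAz, SimpleGraph.Reachable.refl _⟩
    have hz0 : z ≠ 0 := by
      rintro rfl
      have : s = 0 := by rw [← hz.2]; simp
      rw [this] at hlt
      simp at hlt
    obtain ⟨a, ha⟩ := exists_mem_of_ne_zero hz0
    have haa := hz.1 a ha
    have hac : count g a < addOrderOf g := by
      by_contra hc
      push Not at hc
      exact hAz (by rw [hA, ← atom_eq_replicate hg haa hc]; exact ha)
    have hle := le_of_mem_factorization hz ha
    obtain ⟨t, ht⟩ := Multiset.le_iff_exists_add.1 hle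
    have htc : addOrderOf g ≤ count g t := by
      have := congrArg (count g) ht
      rw [count_add] at this
      omega
    have hAt : A ≤ t := le_count_iff_replicate_le.1 htc
    have hts : t.sum = 0 := by
      rw [ht, sum_add, haa.1, zero_add] at hs0
      exact hs0
    obtain ⟨w, hw, hAw⟩ := exists_factorization_mem hts hAa hAt
    refine ⟨⟨a ::ₘ w, ?_, ?_⟩, mem_cons_of_mem hAw, ?_⟩
    · intro b hb
      rcases mem_cons.1 hb with h | h
      · rw [h]; exact haa
      · exact hw.1 b h
    · rw [sum_cons, hw.2, ht]
    · exact reach_of_share _ _ ⟨a, ha, mem_cons_self _ _⟩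
  obtain ⟨z', hz', hzz'⟩ := key z
  obtain ⟨w', hw', hww'⟩ := key w
  exact hzw (hzz'.trans ((reach_of_share z' w' ⟨A, hz', hw'⟩).trans hww'.symm))

theorem finite_betti [Finite G] : {s : Multiset G | IsBetti s}.Finite := by
  classical
  have := Fintype.ofFinite G
  refine (Set.finite_Iic (∑ g : G, replicate (2 * addOrderOf g) g)).subset ?_
  intro s hs
  rw [Set.mem_Iic, Multiset.le_iff_count]
  intro g
  refine (count_le_of_isBetti hs g).trans ?_
  rw [Multiset.count_sum']
  refine le_trans ?_ (Finset.single_le_sum (fun _ _ => Nat.zero_le _) (Finset.mem_univ g))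
  simp

/-- If `a + b` (atoms) has a factorization different from `{a, b}` then it is a Betti element. -/
theorem isBetti_add {a b : Multiset G} (ha : BlockAtom a) (hb : BlockAtom b)
    {z : Multiset (Multiset G)} (hz : IsFactorization (a + b) z) (hne : z ≠ {a, b}) :
    IsBetti (a + b) := by
  rw [isBetti_iff]
  refine ⟨by rw [sum_add, ha.1, hb.1, add_zero], ?_⟩
  have h0 : IsFactorization (a + b) {a, b} := by
    refine ⟨?_, by simp⟩
    intro c hc
    rcases mem_cons.1 (by simpa using hc : c ∈ a ::ₘ {b}) with h | h
    · rw [h]; exact ha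
    · rw [mem_singleton.1 h]; exact hb
  -- a factorization of an atom
  have hatom : ∀ (c : Multiset G), BlockAtom c → ∀ w, IsFactorization c w → w = {c} := by
    intro c hc w hw
    have hw0 : w ≠ 0 := by
      rintro rfl
      exact hc.2.1 (by rw [← hw.2]; simp)
    obtain ⟨e, he⟩ := exists_mem_of_ne_zero hw0
    obtain ⟨w', rfl⟩ := exists_cons_of_mem he
    have h1 := hw.2
    rw [sum_cons] at h1
    have hea := hw.1 e (mem_cons_self _ _)
    have h2 : (w'.sum).sum = 0 := by
      have h3 := hc.1
      rw [← h1, sum_add, hea.1, zero_add] at h3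
      exact h3
    rcases hc.2.2 e w'.sum hea.1 h2 h1.symm with h3 | h3
    · exact absurd h3 hea.2.1
    · have h4 : w' = 0 := by
        by_contra h5
        obtain ⟨f, hf⟩ := exists_mem_of_ne_zero h5
        have h6 : f ≤ w'.sum := single_le_sum (fun x _ => Multiset.zero_le x) f hf
        rw [h3] at h6
        exact (hw.1 f (mem_cons_of_mem hf)).2.1 (Multiset.le_zero.1 h6)
      rw [h3, add_zero] at h1
      rw [h4, h1]
      rfl
  refine ⟨⟨{a, b}, h0⟩, ⟨z, hz⟩, fun hr => ?_⟩
  -- the component of `{a, b}` is trivial
  have key : ∀ w : {z : Multiset (Multiset G) // IsFactorization (a + b) z},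
      (∃ c, c ∈ ({a, b} : Multiset (Multiset G)) ∧ c ∈ w.1) → w.1 = {a, b} := by
    rintro ⟨w, hw⟩ ⟨c, hc, hcw⟩
    obtain ⟨w', rfl⟩ := exists_cons_of_mem hcw
    have h1 := hw.2
    rw [sum_cons] at h1
    rcases mem_cons.1 (by simpa using hc : c ∈ a ::ₘ {b}) with h | h
    · subst h
      have h2 : w'.sum = b := add_left_cancel h1
      have h3 := hatom b hb w' ⟨fun x hx => hw.1 x (mem_cons_of_mem hx), h2⟩
      simp only [h3]
      rfl
    · have h' := mem_singleton.1 h
      subst h'
      have h2 : w'.sum = a := by
        rw [add_comm a] at h1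
        exact add_left_cancel h1
      have h3 := hatom a ha w' ⟨fun x hx => hw.1 x (mem_cons_of_mem hx), h2⟩
      simp only [h3]
      exact Multiset.cons_swap _ _ _
  have key2 : ∀ w : {z : Multiset (Multiset G) // IsFactorization (a + b) z},
      (nabla (a + b)).Reachable ⟨{a, b}, h0⟩ w → w.1 = {a, b} := by
    intro w hw
    rw [SimpleGraph.reachable_iff_reflTransGen] at hw
    induction hw with
    | refl => rfl
    | tail _ hadj ih =>
      obtain ⟨c, hc1, hc2⟩ := share_of_adj hadj
      rw [ih] at hc1
      exact key _ ⟨c, hc1, hc2⟩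
  exact hne (key2 _ hr)

end Basic

theorem map_map_sum {α β : Type*} (f : α → β) (z : Multiset (Multiset α)) :
    (z.map (Multiset.map f)).sum = z.sum.map f := by
  induction z using Multiset.induction with
  | empty => simp
  | cons a z ih => rw [map_cons, sum_cons, sum_cons, Multiset.map_add, ih]

section Embedding

variable {G H : Type*} [AddCommGroup G] [AddCommGroup H]

/-- Betti elements of `H` are Betti elements of `G` under an embedding. -/
theorem isBetti_map (φ : H →+ G) (hφ : Function.Injective φ) {s : Multiset H}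
    (hs : IsBetti s) : IsBetti (s.map φ) := by
  classical
  rw [isBetti_iff] at hs ⊢
  obtain ⟨hs0, z, w, hzw⟩ := hs
  have hsum : ∀ t : Multiset H, (t.map φ).sum = φ t.sum := fun t =>
    (AddMonoidHom.map_multiset_sum φ t).symm
  refine ⟨by rw [hsum, hs0, _root_.map_zero], ?_⟩
  -- the inverse on the range
  obtain ⟨ψ, hψ⟩ : ∃ ψ : G → H, ∀ h, ψ (φ h) = h :=
    ⟨Function.invFun φ, Function.leftInverse_invFun hφ⟩
  have hψφ : ∀ t : Multiset H, (t.map φ).map ψ = t := by
    intro t
    rw [map_map]
    conv_rhs => rw [← map_id t]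
    exact map_congr rfl fun x _ => hψ x
  have hlift : ∀ (t : Multiset H) (a : Multiset G), a ≤ t.map φ → (a.map ψ).map φ = a := by
    intro t a ha
    rw [map_map]
    conv_rhs => rw [← map_id a]
    refine map_congr rfl fun x hx => ?_
    obtain ⟨y, -, rfl⟩ := mem_map.1 (mem_of_le ha hx)
    simp [hψ]
  -- atoms go up
  have hup : ∀ a : Multiset H, BlockAtom a → BlockAtom (a.map φ) := by
    intro a ha
    refine ⟨by rw [hsum, ha.1, _root_.map_zero], by simpa using ha.2.1, ?_⟩
    intro b c hb hc hbc
    have hb' := hlift a b (by rw [hbc]; exact Multiset.le_add_right _ _)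
    have hc' := hlift a c (by rw [hbc]; exact Multiset.le_add_left _ _)
    have h1 : a = b.map ψ + c.map ψ := by
      rw [← hψφ a, hbc, Multiset.map_add]
    have h2 : (b.map ψ).sum = 0 := by
      apply hφ
      rw [← hsum, hb', hb, _root_.map_zero]
    have h3 : (c.map ψ).sum = 0 := by
      apply hφ
      rw [← hsum, hc', hc, _root_.map_zero]
    rcases ha.2.2 _ _ h2 h3 h1 with h4 | h4
    · left; exact Multiset.map_eq_zero.1 h4
    · right; exact Multiset.map_eq_zero.1 h4
  -- atoms go down
  have hdown : ∀ (t : Multiset H) (a : Multiset G), a ≤ t.map φ → BlockAtom a →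
      BlockAtom (a.map ψ) := by
    intro t a hle ha
    have h0 := hlift t a hle
    refine ⟨?_, ?_, ?_⟩
    · apply hφ
      rw [← hsum, h0, ha.1, _root_.map_zero]
    · intro h; exact ha.2.1 (Multiset.map_eq_zero.1 h)
    · intro b c hb hc hbc
      have h1 : a = b.map φ + c.map φ := by rw [← h0, hbc, Multiset.map_add]
      rcases ha.2.2 _ _ (by rw [hsum, hb, _root_.map_zero]) (by rw [hsum, hc, _root_.map_zero]) h1 with h4 | h4
      · left; exact Multiset.map_eq_zero.1 h4
      · right; exact Multiset.map_eq_zero.1 h4
  -- the maps on factorizations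
  let F : {z : Multiset (Multiset H) // IsFactorization s z} →
      {z : Multiset (Multiset G) // IsFactorization (s.map φ) z} := fun z =>
    ⟨z.1.map (Multiset.map φ), by
      refine ⟨?_, ?_⟩
      · intro a ha
        obtain ⟨b, hb, rfl⟩ := mem_map.1 ha
        exact hup b (z.2.1 b hb)
      · rw [map_map_sum, z.2.2]⟩
  let B : {z : Multiset (Multiset G) // IsFactorization (s.map φ) z} →
      {z : Multiset (Multiset H) // IsFactorization s z} := fun z =>
    ⟨z.1.map (Multiset.map ψ), by
      refine ⟨?_, ?_⟩
      · intro a ha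
        obtain ⟨b, hb, rfl⟩ := mem_map.1 ha
        exact hdown s b (le_of_mem_factorization z.2 hb) (z.2.1 b hb)
      · rw [map_map_sum, z.2.2, hψφ]⟩
  have hBF : ∀ z, B (F z) = z := by
    intro z
    apply Subtype.ext
    show (z.1.map (Multiset.map φ)).map (Multiset.map ψ) = z.1
    rw [map_map]
    conv_rhs => rw [← map_id z.1]
    exact map_congr rfl fun x _ => hψφ x
  refine ⟨F z, F w, fun hr => hzw ?_⟩
  rw [← hBF z, ← hBF w]
  generalize F z = u at hr
  generalize F w = v at hr
  rw [SimpleGraph.reachable_iff_reflTransGen] at hr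
  induction hr with
  | refl => exact SimpleGraph.Reachable.refl _
  | tail _ hadj ih =>
    obtain ⟨c, hc1, hc2⟩ := share_of_adj hadj
    exact ih.trans (reach_of_share _ _ ⟨c.map ψ, mem_map_of_mem _ hc1, mem_map_of_mem _ hc2⟩)

end Embedding

end Pool.Agent.Lib.H83B
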